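import Pool.Agent.Run7.h414.PM.Pell

set_option autoImplicit false

/-!
# The numbers `64 b ^ 2 + 9 = 8 d ^ 2 + 1` in random models of the primes, and randomly displaced primes

Let `N_m = 8 d_m ^ 2 + 1 = 64 b_m ^ 2 + 9`, where `d_m + b_m √8 = (3 + √8) ^ m`. The question is whether `N_m` is prime for
infinitely many `m`. We replace the primes by a random set `S`, and determine the asymptotic number of the `m < X` with
`N_m ∈ S`, for almost every `S`, whenever the expected number is unbounded: this holds for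
(1) every sequential random model of the primes with a sieve: the multiples of the primes `q ≤ z m` are forbidden for `m`,
and every other `m` is accepted with a conditional probability asymptotic to `∏_{q ≤ z m} (1 - 1/q)⁻¹ / log m`, the decisions
being allowed to depend on each other in an arbitrary way; and
(2) the perturbed primes: the integers `m` for which the true number `m + J_m w_m` is prime, where `w_m` is the product of the
primes up to `z m`, and the `J_m` are independent and uniformly distributed on `{0, …, Q m - 1}`, `Q m w_m` lying between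
`m / (log m)^C` and `m`.
The expected number is unbounded for every sieve `z < 104411704393 = N_7` (which is prime): the sequence `N_m` is periodic modulo
every integer, so that `N_m` has no prime factor less than `N_7` for all `m ≡ 7` modulo some period.
-/

namespace Pool.Agent.Results.MP_f53aaa_nt.ModelsAndPerturbedPrimes

open Filter MeasureTheory ProbabilityTheory
open scoped Topology

/-- The pairs `(d_m, b_m)`, `d_m + b_m √8 = (3 + √8) ^ m`. -/
def db : ℕ → ℕ × ℕ
  | 0 => (1, 0)
  | m + 1 => (3 * (db m).1 + 8 * (db m).2, (db m).1 + 3 * (db m).2)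

/-- The numbers `N_m = 8 d_m ^ 2 + 1`. -/
def N (m : ℕ) : ℕ := 8 * (db m).1 ^ 2 + 1

/-- No prime `q ≤ z m` divides `m`. -/
def Sieved (z : ℕ → ℕ) (m : ℕ) : Prop := ∀ q, q.Prime → q ≤ z m → ¬ q ∣ m

/-- `V x = ∏_{q ≤ x, q prime} (1 - 1/q)⁻¹`. -/
noncomputable def V (x : ℕ) : ℝ := ∏ q ∈ (Finset.Icc 1 x).filter Nat.Prime, (1 - (q : ℝ)⁻¹)⁻¹

open Classical in
/-- The density of the model at `m`. -/
noncomputable def rho (z : ℕ → ℕ) (m : ℕ) : ℝ := if Sieved z m then V (z m) / Real.log m else 0

/-- The number of the `m < X` with `N_m ∈ S`. -/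
noncomputable def R (S : Set ℕ) (X : ℕ) : ℕ := Set.ncard {m : ℕ | m < X ∧ N m ∈ S}

/-- The expected number. -/
noncomputable def E (z : ℕ → ℕ) (X : ℕ) : ℝ := ∑ m ∈ Finset.range X, rho z (N m)

/-- A sequential random model of the primes with the sieve `z`: the event `A m` (that `m` belongs to the random set) is
decided at time `m`; it is empty if some prime `q ≤ z m` divides `m`; and almost surely the conditional probability of
`A (m + 1)` given the information up to time `m` is asymptotic to `V (z (m + 1)) / log m` along the `m` for which `m + 1` has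
no prime factor `q ≤ z (m + 1)`. -/
structure Model {Ω : Type} [m0 : MeasurableSpace Ω] (μ : Measure Ω) (ℱ : Filtration ℕ m0) (z : ℕ → ℕ) (A : ℕ → Set Ω) : Prop where
  adapted : ∀ m, MeasurableSet[ℱ m] (A m)
  sieved : ∀ m, ¬ Sieved z m → A m = ∅
  density : ∀ᵐ ω ∂μ, Tendsto
    (fun m : ℕ => (μ[(A (m + 1)).indicator (fun _ => (1 : ℝ)) | ℱ m]) ω * Real.log m / V (z (m + 1)))
    (atTop ⊓ 𝓟 {m : ℕ | Sieved z (m + 1)}) (𝓝 1)

/-- The random variables `J m` are independent, and `J m` is uniformly distributed on `{0, …, Q m - 1}`. -/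
structure IndependentUniform {Ω : Type} [MeasurableSpace Ω] (μ : Measure Ω) (Q : ℕ → ℕ) (J : ℕ → Ω → ℕ) : Prop where
  measurable : ∀ m, Measurable (J m)
  independent : iIndepFun J μ
  uniform : ∀ m, 0 < Q m ∧ ∀ j < Q m, μ.real {ω | J m ω = j} = 1 / Q m

/-- The perturbed primes: the `m` for which `m + j_m w_m` is a prime larger than `z m`, where `w_m` is the product of
the primes up to `z m`. -/
def Perturbed (z : ℕ → ℕ) (j : ℕ → ℕ) : Set ℕ :=
  {m | (m + j m * primorial (z m)).Prime ∧ z m < m + j m * primorial (z m)}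

/-- **The asymptotic number of the `m < X` with `N_m ∈ S`.** (0) The `N_m` are the numbers of the problem, `N_m` is increasing,
and if `z m < 104411704393` for all `m` then the expected number `E z X` tends to infinity. If it tends to infinity, then almost
surely `R S X / E z X` tends to `1`, in particular there are infinitely many `m` with `N_m ∈ S`, (1) for every sequential random
model `S` of the primes with the sieve `z`, if `V (z m) < log m` for large `m`, and (2) for the perturbed primes `S`, if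
`z m ≤ C log log m` and `m / (log m)^C ≤ Q m w_m ≤ m` for large `m`. -/
theorem result (z : ℕ → ℕ) :
    ((∀ m, N m = 64 * (db m).2 ^ 2 + 9) ∧ StrictMono N ∧
      ((∀ m, z m < 104411704393) → Tendsto (E z) atTop atTop)) ∧
    (Tendsto (E z) atTop atTop → (∀ᶠ m : ℕ in atTop, V (z m) < Real.log m) →
      ∀ (Ω : Type) (m0 : MeasurableSpace Ω) (μ : Measure Ω) (_ : IsProbabilityMeasure μ) (ℱ : Filtration ℕ m0)
        (A : ℕ → Set Ω), Model μ ℱ z A →
        ∀ᵐ ω ∂μ, Tendsto (fun X : ℕ => (R {m | ω ∈ A m} X : ℝ) / E z X) atTop (𝓝 1)) ∧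
    (Tendsto (E z) atTop atTop → ∀ (C : ℕ) (Q : ℕ → ℕ), (∀ᶠ m : ℕ in atTop, (z m : ℝ) ≤ C * Real.log (Real.log m)) →
      (∀ᶠ m : ℕ in atTop, (m : ℝ) / Real.log m ^ C ≤ Q m * primorial (z m) ∧ Q m * primorial (z m) ≤ m) →
      ∀ (Ω : Type) (_ : MeasurableSpace Ω) (μ : Measure Ω) (_ : IsProbabilityMeasure μ) (J : ℕ → Ω → ℕ),
        IndependentUniform μ Q J →
        ∀ᵐ ω ∂μ, Tendsto (fun X : ℕ => (R (Perturbed z (fun m => J m ω)) X : ℝ) / E z X) atTop (𝓝 1)) := by
  classical
  have hdb : ∀ m, db m = Pool.Agent.Run7.h414.PM.Pell.P m := by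
    intro m
    induction m with
    | zero => rfl
    | succ m ih =>
      show (3 * (db m).1 + 8 * (db m).2, (db m).1 + 3 * (db m).2) = _
      rw [ih]
      rfl
  have hN : N = Pool.Agent.Run7.h414.PM.Pell.N := by
    funext m
    unfold N
    rw [hdb]
    rfl
  have hE : E z = Pool.Agent.Run7.h414.PM.Pell.EE z := by
    funext X
    unfold E
    rw [hN]
    rfl
  have key : Tendsto (E z) atTop atTop → (∀ᶠ m : ℕ in atTop, V (z m) < Real.log m) →
      ∀ (Ω : Type) (m0 : MeasurableSpace Ω) (μ : Measure Ω) (_ : IsProbabilityMeasure μ) (ℱ : Filtration ℕ m0)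
        (A : ℕ → Set Ω), Model μ ℱ z A →
        ∀ᵐ ω ∂μ, Tendsto (fun X : ℕ => (R {m | ω ∈ A m} X : ℝ) / E z X) atTop (𝓝 1) := by
    intro hEt hV Ω m0 μ hμ ℱ A hA
    have hV' : ∀ᶠ m : ℕ in atTop, Pool.Agent.N233.GM.W (z m) / Real.log m < 1 := by
      filter_upwards [hV, Pool.Agent.Run7.h414.PM.logt.eventually_ge_atTop 1] with m h1 h2
      rw [div_lt_one (by linarith)]
      exact h1
    rw [hE] at hEt
    have h := Pool.Agent.Run7.h414.PM.Pell.model (μ := μ) (ℱ := ℱ) (A := A) z hV' hEt hA.adapted hA.sieved hA.density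
    filter_upwards [h] with ω hω
    refine hω.congr fun X => ?_
    have e : {m : ℕ | m < X ∧ N m ∈ {m | ω ∈ A m}} =
        ↑((Finset.range X).filter (fun m => ω ∈ A (Pool.Agent.Run7.h414.PM.Pell.N m))) := by
      ext m
      rw [hN]
      simp only [Set.mem_ofPred_eq, Finset.coe_filter, Finset.mem_range]
    unfold R
    rw [e, Set.ncard_coe_finset, hE]
  refine ⟨⟨fun m => ?_, ?_, fun hz => ?_⟩, key, ?_⟩
  · rw [hN, hdb]
    exact Pool.Agent.Run7.h414.PM.Pell.N_eq m
  · rw [hN]
    exact Pool.Agent.Run7.h414.PM.Pell.N_strict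
  · rw [hE]
    exact Pool.Agent.Run7.h414.PM.Pell.EE_top z 104411704392 (by norm_num) (fun m => by have := hz m; omega)
  · intro hEt C Q hz hQ Ω m0 μ hμ J hJ
    obtain ⟨ℱ, g1, g2, g3⟩ := Pool.Agent.Run7.h414.PM.pert z Q C hz hQ J ⟨hJ.measurable, hJ.independent, hJ.uniform⟩
    refine key hEt ?_ Ω m0 μ hμ ℱ (Pool.Agent.Run7.h414.PM.PA z J) ⟨g1, g2, g3⟩
    obtain ⟨δ, hδ, h⟩ := Pool.Agent.N233.GM.W_small
    have hpow : ∀ᶠ n : ℕ in atTop, (z n : ℝ) ≤ (n : ℝ) ^ δ := by
      have h0 := (isLittleO_log_rpow_atTop hδ).def (c := 1 / ((C : ℝ) + 1)) (by positivity)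
      filter_upwards [hz, tendsto_natCast_atTop_atTop.eventually h0, Pool.Agent.Run7.h414.PM.logt.eventually_ge_atTop 1,
        eventually_ge_atTop 1] with n h1 h2 h3 h4
      have hn : (0 : ℝ) < (n : ℝ) ^ δ := Real.rpow_pos_of_pos (by exact_mod_cast h4) _
      have hC : (0 : ℝ) ≤ C := Nat.cast_nonneg C
      rw [Real.norm_of_nonneg (by linarith), Real.norm_of_nonneg hn.le] at h2
      have h5 : Real.log (Real.log n) ≤ Real.log n := (Real.log_le_sub_one_of_pos (by linarith)).trans (by linarith)
      have h6 : (C : ℝ) * Real.log (Real.log n) ≤ (C + 1) * Real.log n := by nlinarith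
      have h7 : ((C : ℝ) + 1) * Real.log n ≤ (C + 1) * (1 / (C + 1) * (n : ℝ) ^ δ) := mul_le_mul_of_nonneg_left h2 (by linarith)
      have h8 : ((C : ℝ) + 1) * (1 / (C + 1) * (n : ℝ) ^ δ) = (n : ℝ) ^ δ := by field_simp
      linarith
    filter_upwards [h z hpow, Pool.Agent.Run7.h414.PM.logt.eventually_ge_atTop 1] with m h1 h2
    rw [div_lt_one (by linarith)] at h1
    exact h1

end Pool.Agent.Results.MP_f53aaa_nt.ModelsAndPerturbedPrimes
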