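import Pool.Agent.Run7.h90.AU.PellA

set_option autoImplicit false

/-!
# The numbers `8 d ^ 2 + 1 = 64 b ^ 2 + 9` modulo a prime

Let `(d_j, b_j)` be the solutions of `d ^ 2 - 8 b ^ 2 = 1`. Modulo a large prime `p` for which `8` is a square and the
period of the solutions is at least `p ^ η`, the residues of the numbers `8 d_j ^ 2 + 1 = 64 b_j ^ 2 + 9` of the problem, of
`d_j` and of `b_j`, `j < N`, `N ≥ p ^ η`, have small exponential sums. For `n`, `8 n ^ 2 + 1`, `64 n ^ 2 + 9` at the integers `n`
of an interval of length `L ≥ p ^ (1 - δ)` that are congruent to one of these residues, the theorem gives the number of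
the values without prime factors up to `z` (asymptotically, with the constants predicted for primes), the order of
magnitude of the number of almost primes and the upper bound of this order for primes.

Proof: bound of Bourgain, Glibichuk and Konyagin in the form for recurrences (`Agent/Run7/h823/BK9`);
equidistribution in the residue classes modulo all integers up to `p ^ δ` and the fundamental lemma of the sieve
(`Agent/Run7/h90/AU`); convergence of the products of Legendre symbols (`Agent/Y781/JR`).
-/

namespace Pool.Agent.Results.MP_f53aaa_nt.PellSolutionsModuloPrimes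

open Finset Filter Topology
open Pool.Agent.Run7.h90.AU (Formula Orders quadSeries pell PellSmall FewExceptions)

theorem result : (∀ j : ℕ, (pell j).1 ^ 2 - 8 * (pell j).2 ^ 2 = 1 ∧
      8 * (pell j).1 ^ 2 + 1 = 64 * (pell j).2 ^ 2 + 9) ∧
    (Formula 1 (fun P n => P n) 1 ∧ Orders 1 (fun P n => P n)) ∧
    (∃ D : ℝ, 0 < D ∧ Tendsto (quadSeries 2) atTop (𝓝 D) ∧
      Formula 1 (fun P n => P (8 * n ^ 2 + 1)) D ∧ Orders 1 (fun P n => P (8 * n ^ 2 + 1))) ∧
    (∃ D : ℝ, 0 < D ∧ Tendsto (quadSeries 9) atTop (𝓝 D) ∧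
      Formula 1 (fun P n => P (64 * n ^ 2 + 9)) D ∧ Orders 1 (fun P n => P (64 * n ^ 2 + 9))) ∧
    PellSmall ∧ FewExceptions :=
  ⟨fun j => ⟨by rw [Pool.Agent.Run7.h90.AU.pell_eq]; ring, Pool.Agent.Run7.h90.AU.pell_number j⟩,
    Pool.Agent.Run7.h90.AU.single_all, Pool.Agent.Run7.h90.AU.quadA, Pool.Agent.Run7.h90.AU.quadB,
    Pool.Agent.Run7.h90.AU.pell_small, Pool.Agent.Run7.h90.AU.few_exceptions⟩

end Pool.Agent.Results.MP_f53aaa_nt.PellSolutionsModuloPrimes
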