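import Pool.Agent.Run7.h166.QC.Parts

/-!
# Common divisors of `8 d ^ 2 + 1 = 64 b ^ 2 + 9` and combinations of Pell numbers

Let `d + b √8 = (3 + √8) ^ m`, `m ≥ 1`, so that `M = 8 d ^ 2 + 1 = 64 b ^ 2 + 9` is the general candidate for an admissible
prime (`M` is about `2 (1 + √2) ^ (4 m)`), and let `P_i = 0, 1, 2, 5, 12, 29, …` be the Pell numbers.  Let `N` be an integer
such that `M` does not divide `3 N`, and `g = gcd (M, N)`.

(1) If `N = ∑_{i ∈ S} (u_i P_i + u'_i P_(i+1))` with `|S| = s`, arbitrary integers `u_i, u'_i` and `i ≤ 4 m` then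
`g ≤ 64 (∑ (|u_i| + 3 |u'_i|)) ^ 2 (1 + √2) ^ (4 m - 2 m / s)`.
(2) If `N = ∑_{i ∈ S} u_i P_i` with `S ⊆ [0, 4 m]`, `|u_i| ≤ B`, and an interval `[k, k + l) ⊆ [0, 4 m)`, `l > 0`, contains
none of the numbers `i` and `4 m - i`, `i ∈ S`, then `(1 + √2) ^ l g ≤ 512 B ^ 2 M`.
(3) So `N` in (2) has at least `m / (20 log (B M / g))` terms, and
(4) if `M = a e` with `a, e > 1`, `e ≠ 3`, then `a` is not a combination of fewer than `m / (20 log (B e))` Pell numbers `P_i`,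
`i ≤ 4 m`, with coefficients at most `B`.

Proof (`Pool/Agent/Run7/h166/QC`).  `M` is the norm of `α = 1 + 2 (1 + √2) ^ (4 m)`.  Modulo `α` a power of `ω = 1 + √2` can be
replaced by `-2` times the power with exponent larger by `4 m`.  So `4 √2 N`, times a unit, is a sum of powers of `ω` on the
circle `ℤ / 4 m`, with small coefficients; the circle is rotated such that the largest gap is the end of `[0, 4 m)`.  The
element obtained in this way is not zero (otherwise `α` and its conjugate divide `N`), its norm is small, and `g` divides it.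
-/

set_option autoImplicit false

namespace Pool.Agent.Results.MP_f53aaa_nt.RotatedSums

open Finset Real Pool.Agent.Run7.h166.PC Pool.Agent.Run7.h166.QC

/-- **Common divisors of `8 d ^ 2 + 1 = 64 b ^ 2 + 9` and combinations of Pell numbers.** -/
theorem result :
    -- (1) `s` pairs of consecutive Pell numbers, arbitrary coefficients
    (∀ m : ℕ, 0 < m → ∀ b d : ℤ, (d : ℝ) + b * √8 = (3 + √8) ^ m →
      ∀ (S : Finset ℕ) (u u' : ℕ → ℤ), (∀ i ∈ S, i ≤ 4 * m) →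
        ¬ 8 * d ^ 2 + 1 ∣ 3 * ∑ i ∈ S, (u i * P i + u' i * P (i + 1)) →
        (Int.gcd (8 * d ^ 2 + 1) (∑ i ∈ S, (u i * P i + u' i * P (i + 1))) : ℝ) ≤
          64 * (∑ i ∈ S, (|(u i : ℝ)| + 3 * |(u' i : ℝ)|)) ^ 2 * (1 + √2) ^ ((4 * m : ℝ) - 2 * m / S.card)) ∧
    -- (2) intervals without terms
    (∀ m : ℕ, 0 < m → ∀ b d : ℤ, (d : ℝ) + b * √8 = (3 + √8) ^ m →
      ∀ (S : Finset ℕ) (u : ℕ → ℤ) (B : ℝ) (k l : ℕ), (∀ i ∈ S, i ≤ 4 * m) → (∀ i ∈ S, |(u i : ℝ)| ≤ B) →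
        0 < l → k + l ≤ 4 * m → (∀ i ∈ S, (i < k ∨ k + l ≤ i) ∧ (4 * m < i + k ∨ k + l + i ≤ 4 * m)) →
        ¬ 8 * d ^ 2 + 1 ∣ 3 * ∑ i ∈ S, u i * P i →
        (1 + √2) ^ l * (Int.gcd (8 * d ^ 2 + 1) (∑ i ∈ S, u i * P i) : ℝ) ≤ 512 * B ^ 2 * (8 * (d : ℝ) ^ 2 + 1)) ∧
    -- (3) the number of terms
    (∀ m : ℕ, 0 < m → ∀ b d : ℤ, (d : ℝ) + b * √8 = (3 + √8) ^ m →
      ∀ (S : Finset ℕ) (u : ℕ → ℤ) (B : ℝ), (∀ i ∈ S, i ≤ 4 * m) → (∀ i ∈ S, |(u i : ℝ)| ≤ B) →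
        ¬ 8 * d ^ 2 + 1 ∣ 3 * ∑ i ∈ S, u i * P i →
        1 / 20 * (m : ℝ) ≤
          S.card * Real.log (B * ((8 * (d : ℝ) ^ 2 + 1) / Int.gcd (8 * d ^ 2 + 1) (∑ i ∈ S, u i * P i)))) ∧
    -- (4) the factors of `8 d ^ 2 + 1`
    (∀ m : ℕ, 0 < m → ∀ b d : ℤ, (d : ℝ) + b * √8 = (3 + √8) ^ m →
      ∀ a e : ℤ, 1 < a → 1 < e → e ≠ 3 → a * e = 8 * d ^ 2 + 1 →
      ∀ (S : Finset ℕ) (u : ℕ → ℤ) (B : ℝ), (∀ i ∈ S, i ≤ 4 * m) → (∀ i ∈ S, |(u i : ℝ)| ≤ B) →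
        a = ∑ i ∈ S, u i * P i → 1 / 20 * (m : ℝ) ≤ S.card * Real.log (B * e)) := by
  have hcast : ∀ d : ℤ, ((8 * d ^ 2 + 1 : ℤ) : ℝ) = 8 * (d : ℝ) ^ 2 + 1 := fun d => by push_cast; ring
  refine ⟨fun m hm b d h S u u' hS hnd => partA hm h S hS u u' hnd,
    fun m hm b d h S u B k l hS hu hl hkl hgap hnd => ?_, fun m hm b d h S u B hS hu hnd => ?_,
    fun m hm b d h a e ha he he3 hae S u B hS hu haS => ?_⟩
  · have := partB hm h S hS u B hu k l hkl hgap hl hnd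
    rwa [hcast] at this
  · have := partD hm h S hS u B hu hnd
    rwa [hcast] at this
  · have hnd : ¬ 8 * d ^ 2 + 1 ∣ 3 * ∑ i ∈ S, u i * P i := by
      rw [← haS, ← hae]
      rintro ⟨q, hq⟩
      have h1 : 3 = e * q := by
        have h2 : a * 3 = a * (e * q) := by linarith
        exact mul_left_cancel₀ (by linarith : a ≠ 0) h2
      have h3 : e ∣ 3 := ⟨q, h1⟩
      have h4 := Int.le_of_dvd (by norm_num) h3
      have h5 : e = 2 := by omega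
      rw [h5] at h3
      norm_num at h3
    have hg : (Int.gcd (8 * d ^ 2 + 1) (∑ i ∈ S, u i * P i) : ℤ) = a := by
      rw [← haS]
      exact Int.gcd_eq_right (by linarith) ⟨e, hae.symm⟩
    have hgr : ((Int.gcd (8 * d ^ 2 + 1) (∑ i ∈ S, u i * P i) : ℕ) : ℝ) = (a : ℝ) := by
      exact_mod_cast congrArg (fun z : ℤ => (z : ℝ)) hg
    have ha0 : (0 : ℝ) < a := by exact_mod_cast (by linarith : (0 : ℤ) < a)
    have hq : ((8 * d ^ 2 + 1 : ℤ) : ℝ) / a = e := by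
      rw [div_eq_iff ha0.ne', ← hae]
      push_cast
      ring
    have := partD hm h S hS u B hu hnd
    rwa [hgr, hq] at this

end Pool.Agent.Results.MP_f53aaa_nt.RotatedSums
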