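import Pool.Agent.Run7.h91.PX.Main

/-!
# Sparse multiples of divisors of the numbers `8 d ^ 2 + 1 = 64 b ^ 2 + 9`

Let `d + b √8 = (3 + √8) ^ m`, `m ≥ 1`, so that `M = 8 d ^ 2 + 1 = 64 b ^ 2 + 9` is the general candidate for an admissible
prime, and let `P_i = 0, 1, 2, 5, 12, 29, …` be the Pell numbers.  Let `N = ∑_{i ∈ S} (u_i P_i + u'_i P_(i+1))` with
`|S| = s`, arbitrary integers `u_i, u'_i` and all `i ≤ 4 m L` (the size of `M` is about `(1 + √2) ^ (4 m)`), and assume that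
`M` does not divide `3 N`.  Then, for every `t ≥ 1` with `t ^ s < 4 m`,
`gcd (M, N) ≤ (8 * 4 ^ L ∑ (|u_i| + 3 |u'_i|)) ^ (2 t ^ s) (1 + √2) ^ (2 (4 m / t))`.
So for all `δ > 0` and `L` there is `c > 0` such that a number `N ≠ 0` with `i ≤ 4 m L` which has a common divisor at least
`M ^ δ` with `M`, without being divisible by `M / (M, 3)`, needs at least `c log (m / (ℓ + 1))` pairs of consecutive Pell
numbers with coefficients at most `(1 + √2) ^ ℓ`.  If `M` is composite, then this applies to all its proper divisors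
`≥ √M` other than `M / 3`, and to the multiples of these divisors.  The starting result SparseFactors for this problem needs
a factorization `M = x y` in which both `x` and `y` are sparse.

Proof (`Pool/Agent/Run7/h91/PX`).  With `ω = 1 + √2`, `w = ω ^ (4 m)` and `β = 1 + 2 w` we have `M = β β'`.  Take
`q ≤ t ^ s` such that all `q i` are close to multiples of `4 m`, `q i = r_i + 4 m α_i`, and put
`P(X) = ∑ (c_i ω ^ i X ^ (A - α_i) - (c_i ω ^ i)' X ^ (A + α_i))`, `c_i = u_i + u'_i ω`.  Then `P(1) = 2 √2 N` and `X = 1` is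
a root of the binomial `X ^ q + 2 w` modulo `β`.  This binomial is irreducible over `ℚ(√2)`.  If it divides `P`, then `β`
divides `2 √2 N`, so `M` divides `3 N`.  Otherwise the resultant of the two is a nonzero element of the ideal generated by
`β` and `gcd (M, N)`, its norm is a nonzero multiple of `gcd (M, N)`, and the norm is small because the size of
`ω ^ i X ^ (A - α_i)` at the roots of the binomial is `2 ^ ((A - α_i) / q) ω ^ ((r_i + 4 m A) / q)`, with the inverse power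
of `ω` at the other place.
-/

set_option autoImplicit false

namespace Pool.Agent.Results.MP_f53aaa_nt.SparseMultiples

open Run7.h370 Pool.Agent.Run7.h91.PX

/-- The Pell numbers. -/
def P : ℕ → ℤ
  | 0 => 0
  | 1 => 1
  | k + 2 => 2 * P (k + 1) + P k

theorem P_eq (i : ℕ) : P i = Pool.Agent.N449.SQ.U 2 i := by
  induction i using Nat.strong_induction_on with
  | _ i ih =>
    match i with
    | 0 => rfl
    | 1 => rfl
    | i + 2 => rw [P, Pool.Agent.N449.SQ.U, ih (i + 1) (by omega), ih i (by omega)]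

/-- **Sparse multiples of divisors of `8 d ^ 2 + 1 = 64 b ^ 2 + 9`.** -/
theorem result :
    -- the numbers `8 d ^ 2 + 1`
    (∀ (m : ℕ) (b d : ℤ), (d : ℝ) + b * √8 = (3 + √8) ^ m →
      8 * d ^ 2 + 1 = 64 * b ^ 2 + 9 ∧ (1 + √2) ^ (4 * m) ≤ 8 * (d : ℝ) ^ 2 + 1) ∧
    -- arbitrary coefficients
    (∀ m : ℕ, 0 < m → ∀ b d : ℤ, (d : ℝ) + b * √8 = (3 + √8) ^ m →
      ∀ (L : ℕ) (S : Finset ℕ) (u u' : ℕ → ℤ) (t : ℕ), (∀ i ∈ S, i ≤ 4 * m * L) → 0 < t →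
      t ^ S.card < 4 * m →
      ¬ 8 * d ^ 2 + 1 ∣ 3 * ∑ i ∈ S, (u i * P i + u' i * P (i + 1)) →
      (Int.gcd (8 * d ^ 2 + 1) (∑ i ∈ S, (u i * P i + u' i * P (i + 1))) : ℝ) ≤
        (8 * 4 ^ L * ∑ i ∈ S, (|(u i : ℝ)| + 3 * |(u' i : ℝ)|)) ^ (2 * t ^ S.card) *
          (1 + √2) ^ (2 * (4 * m / t))) ∧
    -- large divisors have no sparse multiples
    (∀ (δ : ℝ) (L : ℕ), 0 < δ → ∃ c : ℝ, 0 < c ∧ ∀ m : ℕ, 0 < m →
      ∀ b d : ℤ, (d : ℝ) + b * √8 = (3 + √8) ^ m →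
      ∀ (S : Finset ℕ) (u u' : ℕ → ℤ) (ℓ : ℕ), (∀ i ∈ S, i ≤ 4 * m * L) →
      (∀ i ∈ S, |(u i : ℝ)| ≤ (1 + √2) ^ ℓ ∧ |(u' i : ℝ)| ≤ (1 + √2) ^ ℓ) →
      ¬ 8 * d ^ 2 + 1 ∣ 3 * ∑ i ∈ S, (u i * P i + u' i * P (i + 1)) →
      (8 * (d : ℝ) ^ 2 + 1) ^ δ ≤
        (Int.gcd (8 * d ^ 2 + 1) (∑ i ∈ S, (u i * P i + u' i * P (i + 1))) : ℝ) →
      c * Real.log (m / (ℓ + 1)) ≤ S.card) ∧
    -- the large proper divisors
    (∀ L : ℕ, ∃ c : ℝ, 0 < c ∧ ∀ m : ℕ, 0 < m →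
      ∀ b d : ℤ, (d : ℝ) + b * √8 = (3 + √8) ^ m →
      ∀ e : ℤ, e ∣ 8 * d ^ 2 + 1 → 0 < e → e < 8 * d ^ 2 + 1 → 8 * d ^ 2 + 1 ≤ e ^ 2 →
      3 * e ≠ 8 * d ^ 2 + 1 → ∀ (S : Finset ℕ) (u u' : ℕ → ℤ) (ℓ : ℕ), (∀ i ∈ S, i ≤ 4 * m * L) →
      (∀ i ∈ S, |(u i : ℝ)| ≤ (1 + √2) ^ ℓ ∧ |(u' i : ℝ)| ≤ (1 + √2) ^ ℓ) →
      e = ∑ i ∈ S, (u i * P i + u' i * P (i + 1)) →
      c * Real.log (m / (ℓ + 1)) ≤ S.card) := by
  have hA : ∀ m : ℕ, 0 < m → ∀ b d : ℤ, (d : ℝ) + b * √8 = (3 + √8) ^ m →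
      ∀ (L : ℕ) (S : Finset ℕ) (u u' : ℕ → ℤ) (t : ℕ), (∀ i ∈ S, i ≤ 4 * m * L) → 0 < t →
      t ^ S.card < 4 * m →
      ¬ 8 * d ^ 2 + 1 ∣ 3 * ∑ i ∈ S, (u i * P i + u' i * P (i + 1)) →
      (Int.gcd (8 * d ^ 2 + 1) (∑ i ∈ S, (u i * P i + u' i * P (i + 1))) : ℝ) ≤
        (8 * 4 ^ L * ∑ i ∈ S, (|(u i : ℝ)| + 3 * |(u' i : ℝ)|)) ^ (2 * t ^ S.card) *
          (1 + √2) ^ (2 * (4 * m / t)) := by
    intro m hm b d hbd L S u u' t hL ht hts hnd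
    simp only [P_eq] at hnd ⊢
    have h1 := pellMain8 m hm b d hbd L S u u' t hL ht hts hnd
      (Int.gcd (8 * d ^ 2 + 1)
        (∑ i ∈ S, (u i * Pool.Agent.N449.SQ.U 2 i + u' i * Pool.Agent.N449.SQ.U 2 (i + 1))) : ℤ)
      (Int.gcd_dvd_left _ _) (Int.gcd_dvd_right _ _)
    rwa [Int.cast_natCast, Nat.abs_cast] at h1
  have h2 : √(2 : ℝ) ^ 2 = 2 := Real.sq_sqrt (by norm_num)
  have hs2 : (0 : ℝ) < √2 := Real.sqrt_pos.2 (by norm_num)
  have hs4 : (1 : ℝ) < √2 := by nlinarith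
  have hlow : ∀ (m : ℕ) (b d : ℤ), (d : ℝ) + b * √8 = (3 + √8) ^ m →
      (1 + √2) ^ (4 * m) ≤ 8 * (d : ℝ) ^ 2 + 1 := by
    intro m b d hbd
    have h := lower8 m b d hbd
    push_cast at h
    exact h
  have hC : ∀ (δ : ℝ) (L : ℕ), 0 < δ → ∃ c : ℝ, 0 < c ∧ ∀ m : ℕ, 0 < m →
      ∀ b d : ℤ, (d : ℝ) + b * √8 = (3 + √8) ^ m →
      ∀ (S : Finset ℕ) (u u' : ℕ → ℤ) (ℓ : ℕ), (∀ i ∈ S, i ≤ 4 * m * L) →
      (∀ i ∈ S, |(u i : ℝ)| ≤ (1 + √2) ^ ℓ ∧ |(u' i : ℝ)| ≤ (1 + √2) ^ ℓ) →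
      ¬ 8 * d ^ 2 + 1 ∣ 3 * ∑ i ∈ S, (u i * P i + u' i * P (i + 1)) →
      (8 * (d : ℝ) ^ 2 + 1) ^ δ ≤
        (Int.gcd (8 * d ^ 2 + 1) (∑ i ∈ S, (u i * P i + u' i * P (i + 1))) : ℝ) →
      c * Real.log (m / (ℓ + 1)) ≤ S.card := by
    intro δ L hδ
    obtain ⟨c, hc0, hc⟩ := asympG (32 * 4 ^ L) 2 (by
      have : 1 ≤ 4 ^ L := Nat.one_le_pow _ _ (by norm_num)
      omega) (by norm_num) δ hδ
    refine ⟨c, hc0, fun m hm b d hbd S u u' ℓ hL hu hnd hbig => ?_⟩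
    have hS : 0 < S.card := by
      rw [Finset.card_pos]
      by_contra h
      rw [Finset.not_nonempty_iff_eq_empty] at h
      subst h
      simp at hnd
    have hm0 : (0 : ℝ) < m := by exact_mod_cast hm
    have hbig2 : (1 + √2) ^ (δ * ((4 * m : ℕ) : ℝ)) ≤
        (Int.gcd (8 * d ^ 2 + 1) (∑ i ∈ S, (u i * P i + u' i * P (i + 1))) : ℝ) := by
      refine le_trans ?_ hbig
      rw [mul_comm, Real.rpow_mul (by positivity), Real.rpow_natCast]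
      exact Real.rpow_le_rpow (by positivity) (hlow m b d hbd) hδ.le
    have hlog : Real.log (m / (ℓ + 1)) ≤ Real.log (((4 * m : ℕ) : ℝ) / (ℓ + 1)) := by
      apply Real.log_le_log (by positivity)
      push_cast
      gcongr
      linarith
    refine (mul_le_mul_of_nonneg_left hlog hc0.le).trans ?_
    refine hc (1 + √2) (by linarith) (4 * m) S.card ℓ _ (by omega) hS hbig2 fun t ht htk => ?_
    refine (hA m hm b d hbd L S u u' t hL ht htk hnd).trans ?_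
    have h3 : ∑ i ∈ S, (|(u i : ℝ)| + 3 * |(u' i : ℝ)|) ≤ S.card * (4 * (1 + √2) ^ ℓ) := by
      rw [← nsmul_eq_mul]
      refine Finset.sum_le_card_nsmul _ _ _ fun i hi => ?_
      have := hu i hi
      linarith [this.1, this.2]
    have h4 : 0 ≤ ∑ i ∈ S, (|(u i : ℝ)| + 3 * |(u' i : ℝ)|) :=
      Finset.sum_nonneg fun _ _ => by positivity
    have h5 : (0 : ℝ) < 4 ^ L := by positivity
    refine mul_le_mul (pow_le_pow_left₀ (by positivity) ?_ _)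
      (pow_le_pow_right₀ (by linarith) (by omega)) (by positivity) (by positivity)
    push_cast
    have h6 := mul_le_mul_of_nonneg_left h3 (by positivity : (0 : ℝ) ≤ 8 * 4 ^ L)
    linarith
  refine ⟨fun m b d hbd => ⟨pell_eq m b d hbd, hlow m b d hbd⟩, hA, hC, ?_⟩
  intro L
  obtain ⟨c, hc0, hc⟩ := hC (1 / 2) L (by norm_num)
  refine ⟨c, hc0, fun m hm b d hbd e he he0 he1 he2 he3 S u u' ℓ hL hu heS => ?_⟩
  refine hc m hm b d hbd S u u' ℓ hL hu ?_ ?_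
  · rw [← heS]
    rintro ⟨k, hk⟩
    obtain ⟨k', hk'⟩ := he
    have h1 : e * 3 = e * (k' * k) := by rw [← mul_assoc, ← hk', ← hk]; ring
    have h3 : 3 = k' * k := mul_left_cancel₀ he0.ne' h1
    have hk0 : 0 < k' := by
      by_contra h
      push Not at h
      nlinarith
    have h4 : k' ∣ 3 := ⟨k, h3⟩
    have h5 : k' ≤ 3 := Int.le_of_dvd (by norm_num) h4
    have h6 : k' ≠ 1 := by
      rintro rfl
      linarith
    have h7 : k' ≠ 2 := by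
      rintro rfl
      omega
    have h8 : k' = 3 := by omega
    apply he3
    rw [hk', h8]
    ring
  · rw [← heS]
    have h1 : (Int.gcd (8 * d ^ 2 + 1) e : ℤ) = e := by
      rw [Int.gcd_comm, Int.gcd_eq_left_iff_dvd he0.le |>.2 he]
    have h2' : (Int.gcd (8 * d ^ 2 + 1) e : ℝ) = (e : ℝ) := by exact_mod_cast h1
    rw [h2', ← Real.sqrt_eq_rpow]
    have h3 : (0 : ℝ) ≤ e := by exact_mod_cast he0.le
    rw [Real.sqrt_le_left h3]
    exact_mod_cast he2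

end Pool.Agent.Results.MP_f53aaa_nt.SparseMultiples
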